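import Pool.Agent.Lib.MP_e2e0ab_lc.Interp

/-!
MP_e2e0ab_lc: graph 3-colourability reduces to matrix symmetry (MS) by a quantifier-free
interpretation in the ordered graph.

`Table m c` is the (finite) type of tables that give a bit for every two kinds `i, j ∈ Fin c`, every
order pattern of two `m`-tuples and every adjacency pattern of two `m`-tuples. `tab F G e` is the
matrix whose rows and columns are the pairs (an `m`-tuple of vertices of `G`, a kind), in the order
given by `e`, and whose entries are read off from the table `F`.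
`MS A`: the rows of `A` can be reordered to give a symmetric matrix.
-/

set_option autoImplicit false

namespace Pool.Agent.Results.MP_e2e0ab_lc.NPHardness

/-- `(P A)ᵀ = P A` for some permutation matrix `P`. -/
def MS {n : ℕ} (A : Matrix (Fin n) (Fin n) ℕ) : Prop :=
  ∃ σ : Equiv.Perm (Fin n), (σ.permMatrix ℕ * A).transpose = σ.permMatrix ℕ * A

/-- The finite tables: kinds of row and column, order pattern and adjacency pattern of the two
tuples (the coordinates of the row tuple are `inl`, those of the column tuple `inr`). -/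
abbrev Table (m c : ℕ) :=
  Fin c → Fin c → (Fin m ⊕ Fin m → Fin m ⊕ Fin m → Ordering) →
    (Fin m ⊕ Fin m → Fin m ⊕ Fin m → Bool) → Bool

open Classical in
/-- The matrix of a graph given by a table. -/
noncomputable def tab {m c k n : ℕ} (F : Table m c) (G : SimpleGraph (Fin k))
    (e : Fin n ≃ (Fin m → Fin k) × Fin c) : Matrix (Fin n) (Fin n) ℕ :=
  Matrix.of fun r s =>
    if F (e r).2 (e s).2
      (fun p q => compare (Sum.elim (e r).1 (e s).1 p) (Sum.elim (e r).1 (e s).1 q))
      (fun p q => decide (G.Adj (Sum.elim (e r).1 (e s).1 p) (Sum.elim (e r).1 (e s).1 q)))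
    then 1 else 0

open Lib.MP_e2e0ab_lc

theorem ms_iff {n : ℕ} (A : Matrix (Fin n) (Fin n) ℕ) (R : Fin n → Fin n → Prop)
    (h1 : ∀ r s, R r s → A r s = 1) (h0 : ∀ r s, ¬ R r s → A r s = 0) :
    MS A ↔ ∃ π : Equiv.Perm (Fin n), ∀ r s, R (π r) s ↔ R (π s) r := by
  unfold MS
  refine exists_congr fun σ => ?_
  rw [← Matrix.ext_iff]
  have h2 : ∀ r c, (σ.permMatrix ℕ * A) r c = A (σ r) c := by
    intro r c
    rw [Equiv.Perm.permMatrix, PEquiv.toMatrix_toPEquiv_mul]
    rfl
  constructor
  · intro h r c
    have h3 := h c r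
    rw [Matrix.transpose_apply, h2, h2] at h3
    constructor
    · intro h4
      by_contra h5
      rw [h1 _ _ h4, h0 _ _ h5] at h3
      omega
    · intro h4
      by_contra h5
      rw [h1 _ _ h4, h0 _ _ h5] at h3
      omega
  · intro h r c
    rw [Matrix.transpose_apply, h2, h2]
    by_cases h4 : R (σ c) r
    · rw [h1 _ _ h4, h1 _ _ ((h c r).1 h4)]
    · rw [h0 _ _ h4, h0 _ _ (fun h5 => h4 ((h c r).2 h5))]

/-- There is a finite table which turns every graph `G` into a `0/1` matrix such that `G` is
3-colourable if and only if the rows of the matrix can be reordered to give a symmetric matrix. -/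
theorem result : ∃ F : Table 4 384, ∀ (k n : ℕ) (G : SimpleGraph (Fin k))
    (e : Fin n ≃ (Fin 4 → Fin k) × Fin 384), G.Colorable 3 ↔ MS (tab F G e) := by
  classical
  have hcard : Fintype.card KK = 384 := by
    rw [Fintype.card_sum, Fintype.card_prod, Fintype.card_option, card_mk, Fintype.card_fin]
  let eK : KK ≃ Fin 384 := (Fintype.equivFin KK).trans (finCongr hcard)
  refine ⟨fun i j o A => decide (FP (eK.symm i) (eK.symm j) o A), ?_⟩
  intro k n G e
  rcases Nat.eq_zero_or_pos k with hk | hk
  · subst hk
    have hn : IsEmpty (Fin n) := ⟨fun r => ((e r).1 0).elim0⟩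
    constructor
    · intro _
      refine ⟨Equiv.refl _, ?_⟩
      ext r
      exact isEmptyElim r
    · intro _
      exact ⟨SimpleGraph.Coloring.mk (fun v => v.elim0) (fun {v} => v.elim0)⟩
  · rw [main_tup hk G]
    let E : Fin n ≃ Tup k := e.trans ((Equiv.refl _).prodCongr eK.symm)
    rw [ms_iff _ (fun r s => RT G (E r) (E s))]
    · exact (transport E (fun a b => Iff.rfl)).symm
    · intro r s h
      show (if (decide (FP (eK.symm (e r).2) (eK.symm (e s).2) _ _)) = true then 1 else 0) = 1
      rw [if_pos]
      rw [decide_eq_true_iff]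
      exact h
    · intro r s h
      show (if (decide (FP (eK.symm (e r).2) (eK.symm (e s).2) _ _)) = true then 1 else 0) = 0
      rw [if_neg]
      rw [decide_eq_true_iff]
      exact h

end Pool.Agent.Results.MP_e2e0ab_lc.NPHardness
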